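import Pool.Agent.H466.HE.SA
import Pool.Agent.H115.HD.L2

/-!
# Project HE (helper466), task L2g: the local average, bands in general position

The proof of helper115 (`Pool.Agent.H115.HD.l2`) with `Bd2` in place of `Bd`.
-/

set_option autoImplicit false

namespace Pool.Agent.H806.HE

open Complex MeasureTheory Set Filter Topology
open scoped ComplexConjugate
open Pool.Agent.H477.E (MT bc Nn)
open Pool.Agent.H448R2.GC (cu fs cu_one cu_zero)
open Pool.Agent.H466.HD
open Pool.Agent.H466.HE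
open Pool.Agent.H115.HD

noncomputable section

theorem l2g (h : S_MVT) : S_L2g := by
  intro β k C0 hB ε hε
  refine ⟨min (1 / 16) (ε / 4), by positivity, ?_⟩
  intro θ hθ hθ0
  have hθε : θ ≤ ε / 4 := hθ0.trans (min_le_right _ _)
  refine ⟨Real.exp (max 3 (192 / ε ^ 3)), ?_, ?_⟩
  · have h1 : Real.exp 3 ≤ Real.exp (max 3 (192 / ε ^ 3)) := Real.exp_le_exp.mpr (le_max_left _ _)
    have h2 : (10 : ℝ) ≤ Real.exp 3 := by
      have h3 : Real.exp 3 = Real.exp 1 ^ 3 := by
        rw [← Real.exp_nat_mul]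
        norm_num
      have h4 := Real.exp_one_gt_d9
      have h5 : (2.7 : ℝ) ^ 3 ≤ Real.exp 1 ^ 3 := pow_le_pow_left₀ (by norm_num) (by linarith) 3
      rw [h3]
      norm_num at h5
      linarith
    linarith
  · intro T c w w0 hT hBd hw0 hw01
    have hT0 : 0 < T := (Real.exp_pos _).trans_le hT
    have hLm : max 3 (192 / ε ^ 3) ≤ Real.log T := (Real.le_log_iff_exp_le hT0).mpr hT
    obtain ⟨L, hLe⟩ : ∃ L, L = Real.log T := ⟨_, rfl⟩
    rw [← hLe] at hLm hBd ⊢
    have hL3 : 3 ≤ L := (le_max_left _ _).trans hLm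
    have hLε : 192 / ε ^ 3 ≤ L := (le_max_right _ _).trans hLm
    have hL0 : 0 < L := by linarith
    have hTe : T = Real.exp L := by rw [hLe, Real.exp_log hT0]
    have hw : 0 < w := lt_of_lt_of_le (by have := hBd.ep; positivity) hBd.w1
    have hcw : 0 ≤ c - w := by
      have h1 := hBd.lo
      have h2 : 0 < ε * L := mul_pos hε hL0
      linarith
    have hhi := hBd.hi
    obtain ⟨N, hN⟩ : ∃ N, N = N0 θ L c w := ⟨_, rfl⟩
    obtain ⟨E, hE⟩ : ∃ E, E = ⌊Real.exp (c + w)⌋₊ := ⟨_, rfl⟩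
    have hE1 : 1 ≤ E := by
      rw [hE, Nat.one_le_floor_iff]
      exact Real.one_le_exp (by linarith)
    have hN1 : 1 ≤ N := by
      rw [hN]
      unfold N0
      rw [← hE]
      exact Nat.mul_pos hE1 (Nn_pos hθ hL0)
    have hEr : (E : ℝ) ≤ Real.exp ((1 / 2 - ε) * L) := by
      rw [hE]
      refine (Nat.floor_le (Real.exp_pos _).le).trans ?_
      exact Real.exp_le_exp.mpr hhi
    have hNr : (N : ℝ) ≤ Real.exp ((1 / 2 - ε) * L) * Real.exp (2 * θ * L) := by
      rw [hN]
      unfold N0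
      rw [← hE, Nat.cast_mul]
      exact mul_le_mul hEr Nn_le (by positivity) (by positivity)
    have hM : ((N * E : ℕ) : ℝ) ≤ Real.exp ((1 - ε) * L) := by
      rw [Nat.cast_mul]
      calc (N : ℝ) * E ≤ (Real.exp ((1 / 2 - ε) * L) * Real.exp (2 * θ * L)) *
            Real.exp ((1 / 2 - ε) * L) := mul_le_mul hNr hEr (by positivity) (by positivity)
        _ = Real.exp ((1 / 2 - ε) * L + 2 * θ * L + (1 / 2 - ε) * L) := by
          rw [Real.exp_add, Real.exp_add]
        _ ≤ Real.exp ((1 - ε) * L) := by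
          apply Real.exp_le_exp.mpr
          nlinarith
    have hM1 : 1 ≤ N * E := Nat.mul_pos hN1 hE1
    have hM0 : (0 : ℝ) < ((N * E : ℕ) : ℝ) := by exact_mod_cast hM1
    obtain ⟨δ, hδe⟩ : ∃ δ : ℝ, δ = 1 / ((N * E : ℕ) : ℝ) := ⟨_, rfl⟩
    have hδ : 0 < δ := by
      rw [hδe]
      positivity
    -- size
    have hsz : ∀ n : ℕ, n ≤ N * E → 8 / δ * (1 + Real.log n) ≤ T / (2 * L) := by
      intro n hn
      have h1 : 8 / δ ≤ 8 * Real.exp ((1 - ε) * L) := by
        rw [hδe]
        have : 8 / (1 / ((N * E : ℕ) : ℝ)) = 8 * ((N * E : ℕ) : ℝ) := by field_simp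
        rw [this]
        linarith
      have h2 : Real.log n ≤ L := by
        rcases Nat.eq_zero_or_pos n with rfl | hn0
        · simp
          linarith
        · have h3 : (0 : ℝ) < n := by exact_mod_cast hn0
          rw [Real.log_le_iff_le_exp h3]
          have h4 : (n : ℝ) ≤ ((N * E : ℕ) : ℝ) := by exact_mod_cast hn
          refine h4.trans (hM.trans ?_)
          apply Real.exp_le_exp.mpr
          nlinarith
      have h3 : 0 ≤ 8 / δ := by positivity
      have h4 : 8 / δ * (1 + Real.log n) ≤ 8 / δ * (1 + L) :=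
        mul_le_mul_of_nonneg_left (by linarith) h3
      have h5 : 8 / δ * (1 + L) ≤ 8 * Real.exp ((1 - ε) * L) * (1 + L) :=
        mul_le_mul_of_nonneg_right h1 (by linarith)
      have h6 := size hε (by linarith) hLε
      rw [hTe]
      linarith
    have hXY : (T + T / (4 * L)) - (T - T / (4 * L)) = T / (2 * L) := by
      field_simp
      ring
    have hXY0 : T - T / (4 * L) ≤ T + T / (4 * L) := by
      have : 0 < T / (4 * L) := by positivity
      linarith
    obtain ⟨S, hS⟩ : ∃ S : Finset (ℕ × ℕ), S = (Finset.Icc 1 N ×ˢ Pb c w).filter (fun x => ¬ x.2 ∣ x.1) :=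
      ⟨_, rfl⟩
    have hPE : ∀ p ∈ Pb c w, p ≤ E := by
      intro p hp
      unfold Pb at hp
      rw [Finset.mem_filter, Finset.mem_Icc, ← hE] at hp
      exact hp.1.2
    have hcardP : (Pb c w).card ≤ E := by
      have : (Pb c w).card ≤ (Finset.Icc 1 E).card := by
        apply Finset.card_le_card
        intro p hp
        rw [Finset.mem_Icc]
        exact ⟨Pb_one hp, hPE p hp⟩
      simpa using this
    have hcardS : S.card ≤ N * E := by
      rw [hS]
      refine (Finset.card_filter_le _ _).trans ?_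
      rw [Finset.card_product, Nat.card_Icc]
      exact Nat.mul_le_mul (by omega) hcardP
    -- the two mean values
    have hA := mv h S lk (ck θ L β c w w0) (X := T - T / (4 * L)) (Y := T + T / (4 * L)) hδ hXY0
      (by
        intro x hx y hy hne
        rw [hS, Finset.mem_filter, Finset.mem_product, Finset.mem_Icc] at hx hy
        rw [hδe]
        exact lk_gap hx.1.1.1 hx.1.1.2 hy.1.1.1 hy.1.1.2 (Pb_prime hx.1.2) (Pb_prime hy.1.2)
          (hPE _ hx.1.2) (hPE _ hy.1.2) hx.2 hne)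
      (by
        rw [hXY]
        exact hsz _ hcardS)
    have hBm := mv h (Finset.Icc 2 N) (fun j : ℕ => Real.log j) (bk θ L β c w w0)
      (X := T - T / (4 * L)) (Y := T + T / (4 * L)) hδ hXY0
      (by
        intro x hx y hy hne
        rw [Finset.mem_Icc] at hx hy
        rw [hδe]
        have hNE : N ≤ N * E := Nat.le_mul_of_pos_right N hE1
        exact log_gap (by omega) (by omega) (by omega) (by omega) hne)
      (by
        rw [hXY]
        apply hsz
        rw [Nat.card_Icc]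
        have hNE : N ≤ N * E := Nat.le_mul_of_pos_right N hE1
        omega)
    rw [hXY] at hA hBm
    have e2 : 2 * (T / (2 * L)) = T / L := by field_simp
    rw [e2] at hA hBm
    have hTL : 0 < T / L := by positivity
    -- coefficient sums
    have hsA : ∑ x ∈ S, ‖ck θ L β c w w0 x‖ ^ 2 ≤ ∑ p ∈ Pb c w, ∑ j ∈ Finset.Icc 1 N,
        ‖cf θ L β c w j‖ ^ 2 * β ((Real.log p - c) / w) ^ 2 / ((j : ℝ) * p) *
        Real.exp (-(w0 ^ 2 * (Real.log j - Real.log p) ^ 2)) := by
      calc ∑ x ∈ S, ‖ck θ L β c w w0 x‖ ^ 2 ≤ ∑ x ∈ Finset.Icc 1 N ×ˢ Pb c w, ‖ck θ L β c w w0 x‖ ^ 2 := by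
            rw [hS]
            exact Finset.sum_le_sum_of_subset_of_nonneg (Finset.filter_subset _ _)
              (fun x _ _ => by positivity)
        _ = _ := by
            rw [Finset.sum_product_right]
            refine Finset.sum_congr rfl fun p _ => Finset.sum_congr rfl fun j _ => ?_
            rw [norm_ck]
    have hsB : ∑ j ∈ Finset.Icc 2 N, ‖bk θ L β c w w0 j‖ ^ 2 = ∑ j ∈ Finset.Icc 2 N,
        ‖hf θ L β c w j‖ ^ 2 / j * Real.exp (-(w0 ^ 2 * Real.log j ^ 2)) :=
      Finset.sum_congr rfl fun j _ => norm_bk j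
    rw [hsB] at hBm
    have hA' := hA.trans (mul_le_mul_of_nonneg_left hsA hTL.le)
    -- the integral
    have hfle : ∀ t : ℝ, ‖Gav w0 (Tp θ T β c w) t - (m0 β c w : ℂ)‖ ^ 2 ≤
        2 * ‖∑ x ∈ S, ck θ L β c w w0 x * cexp (-(I * lk x * t))‖ ^ 2 +
        2 * ‖∑ j ∈ Finset.Icc 2 N, bk θ L β c w w0 j * cexp (-(I * (Real.log j : ℝ) * t))‖ ^ 2 := by
      intro t
      have h1 := Gav_Tp (T := T) hB hθ (by rw [← hLe]; exact hL0) hw hcw hw0 t
      rw [← hLe, ← hN, ← hS] at h1
      rw [h1]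
      have h2 := norm_add_le (∑ x ∈ S, ck θ L β c w w0 x * cexp (-(I * lk x * t)))
        (∑ j ∈ Finset.Icc 2 N, bk θ L β c w w0 j * cexp (-(I * (Real.log j : ℝ) * t)))
      have h3 := pow_le_pow_left₀ (norm_nonneg _) h2 2
      nlinarith [sq_nonneg (‖∑ x ∈ S, ck θ L β c w w0 x * cexp (-(I * lk x * t))‖ -
        ‖∑ j ∈ Finset.Icc 2 N, bk θ L β c w w0 j * cexp (-(I * (Real.log j : ℝ) * t))‖)]
    have hcA : Continuous fun t : ℝ => ‖∑ x ∈ S, ck θ L β c w w0 x * cexp (-(I * lk x * t))‖ ^ 2 := by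
      fun_prop
    have hcB : Continuous fun t : ℝ =>
        ‖∑ j ∈ Finset.Icc 2 N, bk θ L β c w w0 j * cexp (-(I * (Real.log j : ℝ) * t))‖ ^ 2 := by
      fun_prop
    have hcG : Continuous fun t : ℝ => ‖Gav w0 (Tp θ T β c w) t - (m0 β c w : ℂ)‖ ^ 2 := by
      have h1 : (fun t : ℝ => Gav w0 (Tp θ T β c w) t - (m0 β c w : ℂ)) = fun t : ℝ =>
          (∑ x ∈ S, ck θ L β c w w0 x * cexp (-(I * lk x * t))) +
          ∑ j ∈ Finset.Icc 2 N, bk θ L β c w w0 j * cexp (-(I * (Real.log j : ℝ) * t)) := by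
        funext t
        have h1 := Gav_Tp (T := T) hB hθ (by rw [← hLe]; exact hL0) hw hcw hw0 t
        rw [← hLe, ← hN, ← hS] at h1
        exact h1
      have h2 : Continuous fun t : ℝ => Gav w0 (Tp θ T β c w) t - (m0 β c w : ℂ) := by
        rw [h1]
        fun_prop
      exact h2.norm.pow 2
    rw [← hN]
    calc ∫ t in (T - T / (4 * L))..(T + T / (4 * L)), ‖Gav w0 (Tp θ T β c w) t - (m0 β c w : ℂ)‖ ^ 2
        ≤ ∫ t in (T - T / (4 * L))..(T + T / (4 * L)),
          (2 * ‖∑ x ∈ S, ck θ L β c w w0 x * cexp (-(I * lk x * t))‖ ^ 2 +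
          2 * ‖∑ j ∈ Finset.Icc 2 N, bk θ L β c w w0 j * cexp (-(I * (Real.log j : ℝ) * t))‖ ^ 2) := by
          apply intervalIntegral.integral_mono_on hXY0 (hcG.intervalIntegrable _ _)
            (((hcA.const_mul 2).add (hcB.const_mul 2)).intervalIntegrable _ _)
          intro t _
          exact hfle t
      _ = 2 * (∫ t in (T - T / (4 * L))..(T + T / (4 * L)),
            ‖∑ x ∈ S, ck θ L β c w w0 x * cexp (-(I * lk x * t))‖ ^ 2) +
          2 * ∫ t in (T - T / (4 * L))..(T + T / (4 * L)),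
            ‖∑ j ∈ Finset.Icc 2 N, bk θ L β c w w0 j * cexp (-(I * (Real.log j : ℝ) * t))‖ ^ 2 := by
          rw [intervalIntegral.integral_add ((hcA.const_mul 2).intervalIntegrable _ _)
            ((hcB.const_mul 2).intervalIntegrable _ _), intervalIntegral.integral_const_mul,
            intervalIntegral.integral_const_mul]
      _ ≤ _ := by
          have h1 : 0 ≤ ∑ p ∈ Pb c w, ∑ j ∈ Finset.Icc 1 N,
              ‖cf θ L β c w j‖ ^ 2 * β ((Real.log p - c) / w) ^ 2 / ((j : ℝ) * p) *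
              Real.exp (-(w0 ^ 2 * (Real.log j - Real.log p) ^ 2)) :=
            Finset.sum_nonneg fun p _ => Finset.sum_nonneg fun j _ => by positivity
          have h2 : 0 ≤ ∑ j ∈ Finset.Icc 2 N, ‖hf θ L β c w j‖ ^ 2 / j *
              Real.exp (-(w0 ^ 2 * Real.log j ^ 2)) :=
            Finset.sum_nonneg fun j _ => by positivity
          have h3 := mul_nonneg hTL.le h1
          have h4 := mul_nonneg hTL.le h2
          nlinarith

end

end Pool.Agent.H806.HE
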